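import Pool.Agent.Helper53.Comp.GoalsG
import Pool.Agent.Helper20.Mono.Crd

/-!
# Packet G7: the terms of the expansion are rational functions of `s`, with good poles
-/

namespace Mono.Comp

namespace G7

open Finset Filter Topology

variable {n k : ℕ}

theorem psi_pos {w : Fin n → ℝ} (hw : ∀ i, 0 < w i) {A Z : Finset (Fin n → ℤ)} {Φ : Fan n}
    (ht : Tri A Z Φ) {F : Finset (Fin n → ℤ)} (hF : F ∈ Φ.mx) : 0 < psi Z F w := by
  classical
  obtain ⟨⟨v, hv⟩, hA, _, hd, hvert, hN, _⟩ := ht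
  obtain ⟨h1, h2⟩ := hN.2.2 F hF
  let P : (Fin n → ℝ) →ₗ[ℝ] ℝ :=
    { toFun := psi Z F
      map_add' := psi_add Z (Φ.mx_indep F hF) (Φ.mx_card F hF)
      map_smul' := fun a x => psi_smul Z (Φ.mx_indep F hF) (Φ.mx_card F hF) a x }
  have hPx : ∀ x : Fin n → ℝ, P x = ∑ i, x i * P (Pi.single i 1) := by
    intro x
    conv_lhs => rw [show x = ∑ i, x i • (Pi.single i (1 : ℝ) : Fin n → ℝ) from by
      funext j
      simp [Finset.sum_apply, Pi.single_apply]]
    rw [map_sum]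
    simp only [map_smul, smul_eq_mul]
  have hvm : v ∈ Φ.vert \ Z := by
    rw [Finset.mem_sdiff, hvert]
    exact ⟨Finset.mem_union_left _ hv, Finset.disjoint_left.1 hd hv⟩
  have h3 : 1 ≤ P (toR v) := h1 v hvm
  have h4 : ∀ i, 0 ≤ P (Pi.single i 1) := h2
  have h5 : ∃ i, 0 < P (Pi.single i 1) := by
    by_contra hcon
    push Not at hcon
    have : P (toR v) ≤ 0 := by
      rw [hPx]
      refine Finset.sum_nonpos fun i _ => ?_
      have h6 : P (Pi.single i 1) = 0 := le_antisymm (hcon i) (h4 i)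
      rw [h6, mul_zero]
    linarith
  obtain ⟨i, hi⟩ := h5
  change 0 < P w
  rw [hPx]
  refine Finset.sum_pos' (fun j _ => mul_nonneg (hw j).le (h4 j)) ⟨i, Finset.mem_univ i, ?_⟩
  exact mul_pos (hw i) hi

theorem tendsto_aff (a b : ℝ) : Tendsto (fun ε : ℝ => a + ε * b) (𝓝[>] 0) (𝓝 a) := by
  have : Tendsto (fun ε : ℝ => a + ε * b) (𝓝 0) (𝓝 (a + 0 * b)) := by
    apply Continuous.tendsto
    fun_prop
  rw [zero_mul, add_zero] at this
  exact this.mono_left nhdsWithin_le_nhds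

/-- The coordinates of a block. -/
def blkS (blk : Fin n → Fin k) (i : Fin k) : Finset (Fin n) := univ.filter (fun j => blk j = i)

theorem mem_blkS {blk : Fin n → Fin k} {i : Fin k} {j : Fin n} : j ∈ blkS blk i ↔ blk j = i := by
  simp [blkS]

theorem mem_sel {blk : Fin n → Fin k} {c : Fin k → Fin n} :
    c ∈ sel blk ↔ ∀ i, blk (c i) = i := by
  simp [sel]

/-- The coefficient of a choice. -/
noncomputable def coef (blk : Fin n → Fin k) (ρ : Fin n → ℝ) (c : Fin k → Fin n) : ℝ :=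
  ∏ i, ∏ j ∈ (blkS blk i).erase (c i), 1 / (ρ j - ρ (c i))

/-- The nodes in a block are different. -/
def Dst (blk : Fin n → Fin k) (ρ : Fin n → ℝ) : Prop :=
  ∀ j j', j ≠ j' → blk j = blk j' → ρ j ≠ ρ j'

theorem Dst.inj {blk : Fin n → Fin k} {ρ : Fin n → ℝ} (h : Dst blk ρ) {i : Fin k} {j j' : Fin n}
    (hj : blk j = i) (hj' : blk j' = i) (he : ρ j = ρ j') : j = j' := by
  by_contra hne
  exact h j j' hne (hj.trans hj'.symm) he

theorem dds_eq {blk : Fin n → Fin k} {ρ : Fin n → ℝ} (h : Dst blk ρ) (H : (Fin k → ℝ) → ℝ) :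
    DDS (fun i => (blkS blk i).image ρ) H =
      ∑ c ∈ sel blk, coef blk ρ c * H (fun i => ρ (c i)) := by
  classical
  unfold DDS
  symm
  refine Finset.sum_bij (fun c _ => fun i => ρ (c i)) ?_ ?_ ?_ ?_
  · intro c hc
    rw [mem_sel] at hc
    rw [Fintype.mem_piFinset]
    exact fun i => Finset.mem_image_of_mem _ (mem_blkS.2 (hc i))
  · intro c hc c' hc' he
    rw [mem_sel] at hc hc'
    funext i
    exact h.inj (hc i) (hc' i) (congrFun he i)
  · intro x hx
    rw [Fintype.mem_piFinset] at hx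
    have h1 : ∀ i, ∃ j, blk j = i ∧ ρ j = x i := by
      intro i
      obtain ⟨j, hj, hj'⟩ := Finset.mem_image.1 (hx i)
      exact ⟨j, mem_blkS.1 hj, hj'⟩
    choose c hc hc' using h1
    exact ⟨c, mem_sel.2 hc, funext hc'⟩
  · intro c hc
    rw [mem_sel] at hc
    congr 1
    unfold coef
    refine Finset.prod_congr rfl fun i _ => ?_
    have h1 : ((blkS blk i).image ρ).erase (ρ (c i)) = ((blkS blk i).erase (c i)).image ρ := by
      ext y
      simp only [Finset.mem_erase, Finset.mem_image, mem_blkS]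
      constructor
      · rintro ⟨hy, j, hj, rfl⟩
        exact ⟨j, ⟨fun hj' => hy (by rw [hj']), hj⟩, rfl⟩
      · rintro ⟨j, ⟨hj, hj'⟩, rfl⟩
        exact ⟨fun he => hj (h.inj hj' (hc i) he), j, hj', rfl⟩
    rw [h1, Finset.prod_image]
    intro j hj j' hj' he
    simp only [Finset.coe_erase, Set.mem_sdiff, Finset.mem_coe, mem_blkS] at hj hj'
    exact h.inj hj.1 hj'.1 he

theorem ms_eq {blk : Fin n → Fin k} {ρ : Fin n → ℝ} (h : Dst blk ρ) :
    ms blk ρ = fun i => ((blkS blk i).image ρ).val := by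
  classical
  funext i
  unfold ms
  rw [Finset.image_val_of_injOn]
  · rfl
  · intro j hj j' hj' he
    exact h.inj (mem_blkS.1 hj) (mem_blkS.1 hj') he

theorem tendsto_coef {blk : Fin n → Fin k} {ρ : Fin n → ℝ} (h : Dst blk ρ) (θ : Fin n → ℝ)
    {c : Fin k → Fin n} (hc : c ∈ sel blk) :
    Tendsto (fun η : ℝ => coef blk (ρ + η • θ) c) (𝓝[>] 0) (𝓝 (coef blk ρ c)) := by
  rw [mem_sel] at hc
  unfold coef
  refine tendsto_finsetProd _ fun i _ => tendsto_finsetProd _ fun j hj => ?_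
  rw [Finset.mem_erase, mem_blkS] at hj
  refine Tendsto.div tendsto_const_nhds ?_ ?_
  · have h1 := (tendsto_aff (ρ j) (θ j)).sub (tendsto_aff (ρ (c i)) (θ (c i)))
    exact h1
  · exact sub_ne_zero.2 (h j (c i) hj.1 (hj.2.trans (hc i).symm))

/-- The value of the extension, at distinct positive nodes. -/
theorem ident (h1 : LimitWR) (h4 : GenDir) {A Z : Finset (Fin k → ℤ)} {Φ : Fan k}
    (ht : Tri A Z Φ) {v : Finset (Fin k → ℤ) → ℝ} {V : Finset (Fin k)} (hv : ApexInv V v)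
    {fc : Finset (Fin k → ℤ) → Finset (Fin k → ℤ)}
    (hfc : ∀ σ ∈ Φ.faces, fc σ ∈ Φ.mx ∧ σ ⊆ fc σ) {blk : Fin n → Fin k}
    (hs : Function.Surjective blk) {ρ : Fin n → ℝ} (hpos : ∀ j, 0 < ρ j) (hd : Dst blk ρ)
    (hV : ∀ j, blk j ∉ V → ρ j = 1) :
    ∃ q : (Fin k → Fin n) → Finset (Fin k → ℤ) → Polynomial ℝ,
      (∀ c ∈ sel blk, ∀ σ, (q c σ).natDegree ≤ k + 1) ∧
      (∀ c ∈ sel blk, ∀ σ, q c σ ≠ 0 → σ ∈ Φ.faces ∧
        (∃ d, IsClassR Φ (fun i => ρ (c i)) σ d) ∧ ¬ KillR Φ V Z σ) ∧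
      ∀ s : ℝ, 0 < s → ∀ F : (Fin k → Multiset ℝ) → ℝ, Ext Φ (WR Φ v Z s) F →
        F (ms blk ρ) = ∑ c ∈ sel blk, ∑ σ ∈ Φ.faces,
          (q c σ).eval (1 / (s + psi Z (fc σ) (fun i => ρ (c i)))) := by
  classical
  obtain ⟨θ, hθ1, hθ2⟩ := h4 n k Φ blk ρ hs
  have hq : ∀ c, ∃ q : Finset (Fin k → ℤ) → Polynomial ℝ, c ∈ sel blk →
      (∀ σ, (q σ).natDegree ≤ k + 1) ∧
      (∀ σ, q σ ≠ 0 → σ ∈ Φ.faces ∧ (∃ d, IsClassR Φ (fun i => ρ (c i)) σ d) ∧
        ¬ KillR Φ V Z σ) ∧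
      ∀ s : ℝ, (∀ F ∈ Φ.mx, s + psi Z F (fun i => ρ (c i)) ≠ 0) →
        Tendsto (fun ε : ℝ => WR Φ v Z s ((fun i => ρ (c i)) + ε • (fun i => θ (c i))))
          (𝓝[>] 0) (𝓝 (∑ σ ∈ Φ.faces,
            (q σ).eval (1 / (s + psi Z (fc σ) (fun i => ρ (c i)))))) := by
    intro c
    by_cases hc : c ∈ sel blk
    · obtain ⟨q, hq⟩ := h1 k Φ v Z V (fun i => ρ (c i)) (fun i => θ (c i)) fc
        (fun i => hpos (c i)) (fun i hi => hV (c i) (by rw [mem_sel.1 hc i]; exact hi)) hv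
        (hθ1 c hc) hfc
      exact ⟨q, fun _ => hq⟩
    · exact ⟨fun _ => 0, fun h => (hc h).elim⟩
  choose q hq using hq
  refine ⟨fun c σ => Polynomial.C (coef blk ρ c) * q c σ, ?_, ?_, ?_⟩
  · intro c hc σ
    exact (Polynomial.natDegree_C_mul_le _ _).trans ((hq c hc).1 σ)
  · intro c hc σ hne
    exact (hq c hc).2.1 σ (right_ne_zero_of_mul hne)
  · intro s hs0 F hF
    have L1 := hF.1 n blk ρ θ hs hpos
    have L2 : Tendsto (fun η : ℝ => ∑ c ∈ sel blk, coef blk (ρ + η • θ) c *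
        WR Φ v Z s (fun i => (ρ + η • θ) (c i))) (𝓝[>] 0)
        (𝓝 (∑ c ∈ sel blk, coef blk ρ c * ∑ σ ∈ Φ.faces,
          (q c σ).eval (1 / (s + psi Z (fc σ) (fun i => ρ (c i)))))) := by
      refine tendsto_finsetSum _ fun c hc => ?_
      refine (tendsto_coef hd θ hc).mul ?_
      refine (hq c hc).2.2 s fun G hG => ?_
      have := psi_pos (w := fun i => ρ (c i)) (fun i => hpos (c i)) ht hG
      linarith
    have E : ∀ᶠ η : ℝ in 𝓝[>] 0, F (ms blk (ρ + η • θ)) = ∑ c ∈ sel blk,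
        coef blk (ρ + η • θ) c * WR Φ v Z s (fun i => (ρ + η • θ) (c i)) := by
      have e1 : ∀ᶠ η : ℝ in 𝓝[>] 0, ∀ j, 0 < (ρ + η • θ) j := by
        rw [Filter.eventually_all]
        intro j
        exact (tendsto_aff (ρ j) (θ j)).eventually_const_lt (hpos j)
      filter_upwards [hθ2, e1] with η hη hη'
      have hd' : Dst blk (ρ + η • θ) := hη.2
      rw [ms_eq hd', ← dds_eq hd']
      refine hF.2 _ ?_ ?_ ?_
      · intro i
        obtain ⟨j, hj⟩ := hs i
        exact ⟨_, Finset.mem_image_of_mem _ (mem_blkS.2 hj)⟩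
      · intro i y hy
        obtain ⟨j, _, rfl⟩ := Finset.mem_image.1 hy
        exact hη' j
      · intro x hx
        rw [Fintype.mem_piFinset] at hx
        have h1 : ∀ i, ∃ j, blk j = i ∧ (ρ + η • θ) j = x i := by
          intro i
          obtain ⟨j, hj, hj'⟩ := Finset.mem_image.1 (hx i)
          exact ⟨j, mem_blkS.1 hj, hj'⟩
        choose c hc hc' using h1
        have h2 := hη.1 c (mem_sel.2 hc)
        have h3 : (fun i => (ρ + η • θ) (c i)) = x := funext hc'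
        rwa [h3] at h2
    have h5 := tendsto_nhds_unique_of_eventuallyEq L1 L2 E
    rw [h5]
    refine Finset.sum_congr rfl fun c _ => ?_
    rw [Finset.mul_sum]
    refine Finset.sum_congr rfl fun σ _ => ?_
    rw [Polynomial.eval_mul, Polynomial.eval_C]

end G7

open Finset Filter Topology G7

/-- G7. -/
theorem nodeLim (h1 : LimitWR) (h2 : NodeKill) (h3 : LimLemma) (h4 : GenDir) (h5 : Moebius) :
    NodeLim := by
  classical
  intro k A Z Φ hk ht hcoh e x he hx F hF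
  set V := Vset e x with hVdef
  have hVout : ∀ i, i ∉ V → e i = 1 ∧ (x i).1 = 1 ∧ (x i).2 = 0 := by
    intro i hi
    simpa [hVdef, Vset] using hi
  set r : Fin k → ℝ := fun i => (x i).1 with hr
  set L := finSigmaFinEquiv (m := k) (n := fun i => (x i).2 + 1) with hL
  set N := ∑ i : Fin k, ((x i).2 + 1) with hN
  let blk : Fin N → Fin k := fun j => (L.symm j).1
  let lev : Fin N → ℕ := fun j => ((L.symm j).2 : ℕ)
  have hlev : ∀ j, lev j < (x (blk j)).2 + 1 := fun j => (L.symm j).2.isLt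
  have hbl : ∀ (i : Fin k) (l : Fin ((x i).2 + 1)), blk (L ⟨i, l⟩) = i := by
    intro i l
    simp [blk]
  have hinj : ∀ j j', blk j = blk j' → lev j = lev j' → j = j' := by
    intro j j' hb hl
    apply L.symm.injective
    rcases hj : L.symm j with ⟨i, a⟩
    rcases hj' : L.symm j' with ⟨i', a'⟩
    have hb' : i = i' := by
      have : (L.symm j).1 = (L.symm j').1 := hb
      rw [hj, hj'] at this
      exact this
    subst hb'
    have hl' : (a : ℕ) = (a' : ℕ) := by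
      have : ((L.symm j).2 : ℕ) = ((L.symm j').2 : ℕ) := hl
      rw [hj, hj'] at this
      exact this
    rw [Fin.ext hl']
  have hsurj : Function.Surjective blk := fun i => ⟨L ⟨i, 0⟩, hbl i 0⟩
  have hcard : ∀ i, (blkS blk i).card = (x i).2 + 1 := by
    intro i
    have : (univ : Finset (Fin ((x i).2 + 1))).card = (blkS blk i).card := by
      refine Finset.card_bij (fun l _ => L ⟨i, l⟩) ?_ ?_ ?_
      · intro l _
        exact mem_blkS.2 (hbl i l)
      · intro l _ l' _ hh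
        have := L.injective hh
        simpa using this
      · intro j hj
        have hj' : (L.symm j).1 = i := mem_blkS.1 hj
        subst hj'
        exact ⟨(L.symm j).2, Finset.mem_univ _, by simp⟩
    rw [← this]
    simp
  let ρ₀ : Fin N → ℝ := fun j => r (blk j)
  let θ : Fin N → ℝ := fun j => if blk j ∈ V then -((lev j : ℝ) + 1) else 0
  have hms : ms blk ρ₀ = repl x := by
    funext i
    unfold ms repl
    have h6 : Multiset.map ρ₀ (univ.filter (fun j => blk j = i)).val =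
        Multiset.map (fun _ => r i) (univ.filter (fun j => blk j = i)).val := by
      refine Multiset.map_congr rfl fun j hj => ?_
      have hj' : blk j = i := by simpa using hj
      change r (blk j) = r i
      rw [hj']
    rw [h6, Multiset.map_const']
    congr 1
    exact hcard i
  let ρε : ℝ → Fin N → ℝ := fun ε => ρ₀ + ε • θ
  let Good : ℝ → Prop := fun ε => (∀ j, 0 < ρε ε j) ∧ Dst blk (ρε ε)
  have hVρ : ∀ ε j, blk j ∉ V → ρε ε j = 1 := by
    intro ε j hj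
    change r (blk j) + ε * (if blk j ∈ V then -((lev j : ℝ) + 1) else 0) = 1
    rw [if_neg hj, mul_zero, add_zero]
    exact (hVout _ hj).2.1
  have hgood : ∀ᶠ ε : ℝ in 𝓝[>] 0, Good ε := by
    have e1 : ∀ᶠ ε : ℝ in 𝓝[>] 0, ∀ j, 0 < ρε ε j := by
      rw [Filter.eventually_all]
      intro j
      exact (tendsto_aff (ρ₀ j) (θ j)).eventually_const_lt (hx (blk j))
    filter_upwards [e1, self_mem_nhdsWithin] with ε hε hε0
    refine ⟨hε, ?_⟩
    intro j j' hne hb heq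
    have hε1 : (0 : ℝ) < ε := hε0
    have hll : lev j ≠ lev j' := fun h => hne (hinj j j' hb h)
    have heq' : r (blk j) + ε * (if blk j ∈ V then -((lev j : ℝ) + 1) else 0) =
      r (blk j') + ε * (if blk j' ∈ V then -((lev j' : ℝ) + 1) else 0) := heq
    rw [← hb] at heq'
    by_cases hbV : blk j ∈ V
    · rw [if_pos hbV, if_pos hbV] at heq'
      have h7 : ε * (-((lev j : ℝ) + 1)) = ε * (-((lev j' : ℝ) + 1)) := by linarith
      have h8 := mul_left_cancel₀ hε1.ne' h7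
      apply hll
      have h9 : (lev j : ℝ) = (lev j' : ℝ) := by linarith
      exact_mod_cast h9
    · have hp : (x (blk j)).2 = 0 := (hVout _ hbV).2.2
      have h7 := hlev j
      have h8 := hlev j'
      rw [← hb, hp] at h8
      rw [hp] at h7
      omega
  -- a maximal cone for every face
  have hfc0 : ∀ σ, ∃ G, σ ∈ Φ.faces → G ∈ Φ.mx ∧ σ ⊆ G := by
    intro σ
    by_cases hσ : σ ∈ Φ.faces
    · obtain ⟨G, hG, hG'⟩ := Φ.mem_faces.1 hσ
      exact ⟨G, fun _ => ⟨hG, hG'⟩⟩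
    · exact ⟨∅, fun h => (hσ h).elim⟩
  choose fc hfc using hfc0
  have hv : ApexInv V (vE e) := h5.1 k e V he fun i hi => (hVout i hi).1
  have hid : ∀ ε, Good ε → ∃ q : (Fin k → Fin N) → Finset (Fin k → ℤ) → Polynomial ℝ,
      (∀ c ∈ sel blk, ∀ σ, (q c σ).natDegree ≤ k + 1) ∧
      (∀ c ∈ sel blk, ∀ σ, q c σ ≠ 0 → σ ∈ Φ.faces ∧
        (∃ d, IsClassR Φ (fun i => ρε ε (c i)) σ d) ∧ ¬ KillR Φ V Z σ) ∧
      ∀ s : ℝ, 0 < s → ∀ F : (Fin k → Multiset ℝ) → ℝ, Ext Φ (WR Φ (vE e) Z s) F →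
        F (ms blk (ρε ε)) = ∑ c ∈ sel blk, ∑ σ ∈ Φ.faces,
          (q c σ).eval (1 / (s + psi Z (fc σ) (fun i => ρε ε (c i)))) := fun ε hε =>
    ident h1 h4 ht hv hfc hsurj hε.1 hε.2 (hVρ ε)
  let q : ℝ → (Fin k → Fin N) × Finset (Fin k → ℤ) → Polynomial ℝ := fun ε y =>
    if h : Good ε then Classical.choose (hid ε h) y.1 y.2 else 0
  have hqg : ∀ ε (h : Good ε) y, q ε y = Classical.choose (hid ε h) y.1 y.2 := fun ε h y =>
    dif_pos h
  -- the displacements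
  let δ : (Fin k → Fin N) → Fin k → ℝ := fun c i => if i ∈ V then (lev (c i) : ℝ) + 1 else 0
  have hρc : ∀ ε, ∀ c ∈ sel blk, (fun i => ρε ε (c i)) = r - ε • δ c := by
    intro ε c hc
    rw [mem_sel] at hc
    funext i
    change r (blk (c i)) + ε * (if blk (c i) ∈ V then -((lev (c i) : ℝ) + 1) else 0) =
      r i - ε * (if i ∈ V then (lev (c i) : ℝ) + 1 else 0)
    rw [hc i]
    split_ifs <;> ring
  let PR : ℝ → Prop := fun a => (∃ z : ℤ, a = z) ∨ ∃ S ⊆ Z, multR Φ Z S V r a ≠ 0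
  let G : Finset ℝ := (Φ.faces.image fun σ => psi Z (fc σ) r).filter PR
  have hG : ∀ a ∈ G, 0 < a ∧ PR a := by
    intro a ha
    obtain ⟨ha1, ha2⟩ := Finset.mem_filter.1 ha
    obtain ⟨σ, hσ, rfl⟩ := Finset.mem_image.1 ha1
    exact ⟨psi_pos hx ht (hfc σ hσ).1, ha2⟩
  have hkill : ∀ᶠ ε : ℝ in 𝓝[>] 0, ∀ c ∈ sel blk, ∀ (σ : Finset (Fin k → ℤ))
      (d : (Fin k → ℤ) → ℝ), IsClassR Φ (r - ε • δ c) σ d → ¬ KillR Φ V Z σ →
      ∀ F ∈ Φ.mx, σ ⊆ F → PR (psi Z F r) := by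
    rw [Filter.eventually_all_finset]
    intro c hc
    obtain ⟨ε₀, hε₀, hh⟩ := h2 k Φ hcoh Z V r (δ c) ht.2.2.2.2.2.1
      (fun i hi => by
        change 0 < (if i ∈ V then (lev (c i) : ℝ) + 1 else 0)
        rw [if_pos hi]
        positivity)
      (fun i hi => ⟨(hVout i hi).2.1, if_neg hi⟩)
    filter_upwards [Ioo_mem_nhdsGT hε₀] with ε hε
    intro σ d hσ hk F hF hσF
    exact hh ε hε.1 hε.2 σ d hσ hk F hF hσF
  suffices h : ∃ (m : ℕ) (Q : Polynomial ℝ), ∀ s : ℝ, 0 < s →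
      F s (repl x) * ∏ b ∈ G, (s + b) ^ m = Q.eval s by
    obtain ⟨m, Q, hQ⟩ := h
    exact ⟨G, m, Q, hG, hQ⟩
  refine h3 ((Fin k → Fin N) × Finset (Fin k → ℤ)) (sel blk ×ˢ Φ.faces) G (k + 1)
    q (fun ε y => psi Z (fc y.2) (fun i => ρε ε (y.1 i))) (fun y => psi Z (fc y.2) r)
    (fun s => F s (repl x)) ?_ ?_ ?_ ?_ ?_
  · intro ε y hy
    obtain ⟨hy1, hy2⟩ := Finset.mem_product.1 hy
    by_cases h : Good ε
    · rw [hqg ε h]
      exact (Classical.choose_spec (hid ε h)).1 y.1 hy1 y.2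
    · have : q ε y = 0 := dif_neg h
      rw [this]
      simp
  · intro y hy
    obtain ⟨hy1, hy2⟩ := Finset.mem_product.1 hy
    have hF' := (hfc y.2 hy2).1
    have h6 : (fun ε : ℝ => psi Z (fc y.2) (fun i => ρε ε (y.1 i))) =
        fun ε : ℝ => psi Z (fc y.2) r + ε * psi Z (fc y.2) (-δ y.1) := by
      funext ε
      rw [hρc ε y.1 hy1, sub_eq_add_neg, ← smul_neg,
        psi_add Z (Φ.mx_indep _ hF') (Φ.mx_card _ hF'),
        psi_smul Z (Φ.mx_indep _ hF') (Φ.mx_card _ hF')]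
    rw [h6]
    exact tendsto_aff _ _
  · intro y hy
    obtain ⟨hy1, hy2⟩ := Finset.mem_product.1 hy
    exact psi_pos hx ht (hfc y.2 hy2).1
  · filter_upwards [hgood, hkill] with ε hε hε' y hy hne
    obtain ⟨hy1, hy2⟩ := Finset.mem_product.1 hy
    rw [hqg ε hε] at hne
    obtain ⟨h6, ⟨d, hd⟩, h7⟩ := (Classical.choose_spec (hid ε hε)).2.1 y.1 hy1 y.2 hne
    rw [hρc ε y.1 hy1] at hd
    refine Finset.mem_filter.2 ⟨Finset.mem_image.2 ⟨y.2, hy2, rfl⟩, ?_⟩
    exact hε' y.1 hy1 y.2 d hd h7 _ (hfc y.2 hy2).1 (hfc y.2 hy2).2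
  · intro s hs
    have L1 : Tendsto (fun ε : ℝ => F s (ms blk (ρ₀ + ε • θ))) (𝓝[>] 0)
        (𝓝 (F s (ms blk ρ₀))) := (hF s hs).1 N blk ρ₀ θ hsurj fun j => hx (blk j)
    rw [hms] at L1
    refine L1.congr' ?_
    filter_upwards [hgood] with ε hε
    have h6 := (Classical.choose_spec (hid ε hε)).2.2 s hs (F s) (hF s hs)
    change F s (ms blk (ρε ε)) = _
    rw [h6, Finset.sum_product]
    refine Finset.sum_congr rfl fun c _ => Finset.sum_congr rfl fun σ _ => ?_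
    rw [hqg ε hε]

end Mono.Comp
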